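import Pool.Agent.U269.CP.LinMain3

set_option autoImplicit false

/-!
`mad(G) < m` implies that the correspondence packing number is at most `⌈20m/11⌉`.
-/

namespace Pool.Agent.Results.MP_36eb6d_co.LinearBound

open Pool.Agent.TH455 Pool.Agent.U269.CP

/-- For every integer `m ≥ 1` and every finite graph `G` with `mad(G) < m` the correspondence
packing number of `G` is at most `⌈20m/11⌉ = ⌊(20m + 10)/11⌋`. -/
theorem result (m : ℕ) (hm : 1 ≤ m) (V : Type) [Fintype V] (G : SimpleGraph V)
    (hG : MadLT G (m : ℝ)) :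
    CorrPackable G ((20 * m + 10) / 11) ∧ mCorrPackingNumber G ≤ (20 * m + 10) / 11 := by
  have h0 : 20 * m ≤ 11 * ((20 * m + 10) / 11) := by omega
  have h : CorrPackable G ((20 * m + 10) / 11) := corrPackable_lin2 G (by exact_mod_cast h0) hG
  exact ⟨h, Nat.sInf_le ⟨by omega, h⟩⟩

end Pool.Agent.Results.MP_36eb6d_co.LinearBound
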